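import Pool.Agent.helper82.T6.All
import Pool.Agent.helper95.T5.AllE
import Pool.Agent.helper72.T6R.RWG
import Pool.Agent.helper98.T6R.RTD
import Pool.Agent.helper39.T6R.RB0
import Pool.Agent.helper73.T6R.RBL
import Pool.Agent.helper54.T6R.REM
import Pool.Agent.helper87.T6R.RVV
import Pool.Agent.helper99.T6R.RLB
import Pool.Agent.helper19.T6R.RSZ
import Pool.Agent.helper92.T6R.RFU
import Pool.Agent.helper39.T6R.RAT
import Pool.Agent.helper24.T6R.RDI
import Pool.Agent.helper11.T6R.RIN
import Pool.Agent.helper64.T6R.RGE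
import Pool.Agent.helper72.T6R.RRO
import Pool.Agent.helper45.T6R.RBA
import Pool.Agent.helper15.T6R.RMN
import Pool.Agent.helper9.T6R.RBC
import Pool.Agent.helper8.T6R.RTL
import Pool.Agent.helper74.T6R.RCC
import Pool.Agent.helper20.T6R.RFT
import Pool.Agent.helper40.T6R.RMU
import Pool.Agent.helper52.T6R.RCL
import Pool.Agent.helper2.T6R.RSU
import Pool.Agent.helper78.T6R.RGC
import Pool.Agent.helper72.T6R.RCN
import Pool.Agent.helper30.T6R.RFI

set_option autoImplicit false

/-!
# T6R (MP_16912e_nt): everything together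

`allUBR`: the sum of `#Cl(D)[5]` over the fundamental discriminants `0 < D < N` is at most `C N`.
-/

namespace Pool.Agent.T6R

open Finset NumberField Pool.Agent.helper3.FT Pool.Agent.helper47.RA Pool.Agent.T5 Pool.Agent.T6
open scoped nonZeroDivisors

/-- block C -/
theorem allTDR : TDR_stmt := RTD (TGM TGL) TCH TSP TNA TNB (TEU TEA) (RWG allWPR WNU allLFS) allLOCA allLOCB

theorem allRLB : RLB_stmt := RLB REM

theorem allRSZ : RSZ_stmt := RSZ REM

theorem allRIN : RIN_stmt := RIN RDI

theorem allRBL : RBL_stmt := RBL (RB0 BXA BXB allBLU RE1 RE2 TR)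

theorem allRRO : RRO_stmt := RRO RGE allRSZ RFU REM

theorem allRCN : RCN_stmt := RCN allRRO (RBA RGC HLC) allRLB RAT REM

theorem allRSU : RSU_stmt := RSU (RMN allRCN allRIN) (RBC allRCN allRIN allRBL)
  (RFT RTL (RCC REM allRLB RFU allRSZ (RVV REM))) (RCL REM allRLB (RMU REM allRLB))

/-- **the average of the 5-torsion of real quadratic fields is bounded** -/
theorem allUBR : UBR_stmt := RFI allRSU allTDR

end Pool.Agent.T6R
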