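import Pool.Agent.helper26.T5.SpecB
import Pool.Agent.helper82.T5.SpecS
import Pool.Agent.helper95.T5.SpecM
import Pool.Agent.helper95.T5.SpecE
import Pool.Agent.helper8.T6.SpecC2
import Pool.Agent.helper82.T6.SpecW
import Pool.Agent.helper3.T6.DefsH

set_option autoImplicit false

/-!
# T6R (MP_16912e_nt): real quadratic fields, `∑ #Cl[5] = O(N)`; definitions

Page: /team-store/T6R_helper3.md.  `K` real quadratic, `D > 0`, `s = √D`.  The two embeddings `emA, emB : 𝓞 K → ℝ`.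
For `a⁵ = (θ)` let `x_A = |emA θ|^(1/5)`, `x_B = |emB θ|^(1/5)`, so `x_A x_B = N(a)`; the size of `θ` is `sz θ = x_A² + x_B²`.
For `α ∈ a²` the normalised coordinates are `emA α / x_A²`, `emB α / x_B²`, the sum of their squares is `qf θ α`.
-/

namespace Pool.Agent.T6R

open Finset NumberField Pool.Agent.helper3.FT Pool.Agent.helper47.RA Pool.Agent.T5 Pool.Agent.T6
open scoped nonZeroDivisors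

/-! ## Tuples -/

/-- the box of tuples at the scale `N` -/
structure Bx (κ N Y Y₂ : ℝ) (t : Tpl) : Prop where
  tt : IsT t
  n1 : κ * sN N Y Y₂ ≤ t.1.1
  n2 : (t.1.1 : ℝ) ≤ 2 * sN N Y Y₂
  k1 : κ * sK N Y Y₂ ≤ t.1.2
  k2 : (t.1.2 : ℝ) ≤ 2 * sK N Y Y₂
  m2 : |(t.2.1 : ℝ)| ≤ 2 * sM N Y Y₂
  g2 : |(t.2.2.1 : ℝ)| ≤ 2 * sG N Y Y₂
  z2 : |(t.2.2.2 : ℝ)| ≤ Y

/-- `WG_stmt` with `Bx` in place of `Cen` -/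
def WGR_stmt : Prop :=
  ∃ η : ℝ, 0 < η ∧ ∀ κ A : ℝ, 0 < κ → 1 ≤ A → ∃ C N₀ : ℝ, 1 ≤ C ∧ ∀ N Y Y₂ : ℝ, N₀ ≤ N →
    Y ≤ Y₂ → Y₂ ≤ N ^ η * Y → Y * Y₂ ≤ A * N → N ^ (1 - η) ≤ Y * Y₂ →
    ∀ d er es y : ℕ, 1 ≤ d → (d : ℝ) ≤ N ^ η → 1 ≤ er → 1 ≤ es → Nat.Coprime er es →
    er ^ 2 * es * y ≤ d ^ 2 → Squarefree y → y ∣ es →
    ∀ (s : ℝ) (S : ℕ × ℕ → Finset Cls), (∀ p, ((S p).card : ℝ) ≤ s) →
    ∀ F : Finset Tpl, (∀ t ∈ F, Bx κ (N * (d : ℝ) ^ 2) Y Y₂ t ∧ y ∣ t.1.1 * t.1.2 ∧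
      Nat.Coprime (t.1.1 * t.1.2) er ∧ ∃ x ∈ S t.1, InC er es x t) →
    (F.card : ℝ) ≤ C ^ (y.primeFactors.card + 1) * (s / y) * (Y * Y₂) *
      (1 / ((er : ℝ) ^ 4 * (es : ℝ) ^ 3) +
        (Y * Y₂ / (N * (d : ℝ) ^ 2)) ^ (3 / 2 : ℝ) / (er * (es : ℝ) ^ (1 / 4 : ℝ)))

/-- `TD_stmt` with `Bx` in place of `Cen` -/
def TDR_stmt : Prop :=
  ∃ η : ℝ, 0 < η ∧ ∀ κ A : ℝ, 0 < κ → 1 ≤ A → ∃ C N₀ : ℝ, 1 ≤ C ∧ ∀ N Y Y₂ : ℝ, N₀ ≤ N →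
    Y ≤ Y₂ → Y₂ ≤ N ^ η * Y → Y * Y₂ ≤ A * N → N ^ (1 - η) ≤ Y * Y₂ →
    ∀ F : Finset (ℕ × Tpl), (∀ x ∈ F, 1 ≤ x.1 ∧ (x.1 : ℝ) ≤ N ^ η ∧
      Bx κ (N * (x.1 : ℝ) ^ 2) Y Y₂ x.2 ∧ (x.1 : ℤ) ^ 2 ∣ dis x.2) →
    (F.card : ℝ) ≤ C * (Y * Y₂)

/-! ## Embeddings and sizes -/

section
variable {K : Type} [Field K] [NumberField K]

/-- the first real embedding (`D > 0`) -/
noncomputable def emA (Q : QF K) (a : 𝓞 K) : ℝ :=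
  ((Q.hspan a).choose : ℝ) + Q.Y a * ((Q.t + √(Q.D : ℝ)) / 2)

/-- the second real embedding (`D > 0`) -/
noncomputable def emB (Q : QF K) (a : 𝓞 K) : ℝ :=
  ((Q.hspan a).choose : ℝ) + Q.Y a * ((Q.t - √(Q.D : ℝ)) / 2)

/-- `|emA θ| ^ (1/5)` -/
noncomputable def xA (Q : QF K) (θ : 𝓞 K) : ℝ := |emA Q θ| ^ (1 / 5 : ℝ)

/-- `|emB θ| ^ (1/5)` -/
noncomputable def xB (Q : QF K) (θ : 𝓞 K) : ℝ := |emB Q θ| ^ (1 / 5 : ℝ)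

/-- the size of a generator of a fifth power -/
noncomputable def sz (Q : QF K) (θ : 𝓞 K) : ℝ := xA Q θ ^ 2 + xB Q θ ^ 2

/-- the weighted quadratic form -/
noncomputable def qw (Q : QF K) (u v : ℝ) (α : 𝓞 K) : ℝ := (emA Q α / u) ^ 2 + (emB Q α / v) ^ 2

/-- the quadratic form on `a²` attached to the generator `θ` of `a⁵` -/
noncomputable def qf (Q : QF K) (θ α : 𝓞 K) : ℝ := qw Q (xA Q θ ^ 2) (xB Q θ ^ 2) α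

/-- a basis of an ideal -/
structure BAS (Q : QF K) (I : Ideal (𝓞 K)) (e₁ e₂ : 𝓞 K) : Prop where
  m1 : e₁ ∈ I
  m2 : e₂ ∈ I
  sp : ∀ α ∈ I, ∃ x y : ℤ, α = x * e₁ + y * e₂
  det : |Q.Y (Q.cj e₁ * e₂)| = (Ideal.absNorm I : ℤ)
  ne : e₁ ≠ 0

/-- the primitive ideals `a` of order 5 with a generator `θ` of `a⁵` of size in `(Y / 2, Y]` such that the minimum of
`qf θ` on `a²` lies in `(l, 2 l]` -/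
structure IMR (Q : QF K) (Y l : ℝ) (a : Ideal (𝓞 K)) (θ : 𝓞 K) : Prop where
  ne : a ≠ ⊥
  pa : Prim a
  th : Ideal.span {θ} = a ^ 5
  np : ¬ a.IsPrincipal
  y1 : Y / 2 < sz Q θ
  y2 : sz Q θ ≤ Y
  lo : ∀ α ∈ a ^ 2, α ≠ 0 → l < qf Q θ α
  hi : ∃ α ∈ a ^ 2, α ≠ 0 ∧ qf Q θ α ≤ 2 * l

/-- the set of these ideals -/
def IMset (Q : QF K) (Y l : ℝ) : Set (Ideal (𝓞 K)) := {a | ∃ θ, IMR Q Y l a θ}

/-- `t` is the reduced tuple of `(a, α, γ)`, `d` the gcd of `Y α`, `Y γ` (no condition on the signs of `Z`, `Λ`) -/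
structure DatR (Q : QF K) (a : Ideal (𝓞 K)) (α γ : 𝓞 K) (d : ℕ) (t : Tpl) : Prop where
  full : ∃ F : Full Q, F.a = a ∧ F.β = α ∧ F.γ = γ ∧ F.Z = t.2.2.2 ∧ F.Λ = lam t ∧
    Q.Y F.u = d * t.2.1 ∧ Q.Y F.v = d * t.2.2.1
  tt : IsT t
  d1 : 1 ≤ d
  n : Q.Y α = d * t.1.1
  k : Q.Y γ = d * t.1.2
  D : dis t = Q.D * (d : ℤ) ^ 2

/-- the pairs `(a, α)` whose tuple lies in the box -/
def GSR (Q : QF K) (κ N Y Y₂ H : ℝ) : Set (Ideal (𝓞 K) × 𝓞 K) :=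
  {x | ∃ (γ : 𝓞 K) (d : ℕ) (t : Tpl), DatR Q x.1 x.2 γ d t ∧ (d : ℝ) ≤ H ∧ Bx κ (N * (d : ℝ) ^ 2) Y Y₂ t}

/-- the classes with small data -/
def CC (Q : QF K) (U : ℝ) : Set (ClassGroup (𝓞 K)) :=
  {c | c ≠ 1 ∧ c ^ 5 = 1 ∧ ∃ (I : (Ideal (𝓞 K))⁰) (θ : 𝓞 K), ClassGroup.mk0 I = c ∧ Prim (I : Ideal (𝓞 K)) ∧
    Ideal.span {θ} = (I : Ideal (𝓞 K)) ^ 5 ∧ sz Q θ ≤ U ∧ ∃ α ∈ (I : Ideal (𝓞 K)) ^ 2, α ≠ 0 ∧ qf Q θ α ≤ U}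

/-- the minimal size in a class -/
noncomputable def Mn (Q : QF K) (c : ClassGroup (𝓞 K)) : ℝ :=
  sInf {r : ℝ | ∃ (I : (Ideal (𝓞 K))⁰) (θ : 𝓞 K), ClassGroup.mk0 I = c ∧ Ideal.span {θ} = (I : Ideal (𝓞 K)) ^ 5 ∧ sz Q θ = r}

end

open Classical in
/-- positive fundamental discriminants with `N / 2 < D ≤ N` -/
noncomputable def DNR (N : ℝ) : Finset ℤ := (Icc 1 ⌊N⌋).filter (fun D => IsFund D ∧ N / 2 < (D : ℝ))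

/-- **UBR** (the target): the sum of `#Cl[5]` over real quadratic fields is `O(N)` -/
def UBR_stmt : Prop := ∃ C : ℝ, 0 ≤ C ∧ ∀ f : ℤ → ℕ,
  (∀ (K : Type) [Field K] [NumberField K], Module.finrank ℚ K = 2 →
    f (NumberField.discr K) = Nat.card {x : ClassGroup (𝓞 K) // x ^ 5 = 1}) →
  ∀ (N : ℕ) (s : Finset ℤ), (∀ D ∈ s, IsFund D ∧ 0 < D ∧ |D| < N) → ∑ D ∈ s, (f D : ℝ) ≤ C * N

end Pool.Agent.T6R
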