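import Pool.Agent.helper3.T6R.Defs
import Pool.Agent.helper3.T6.SpecH

set_option autoImplicit false

/-!
# T6R (MP_16912e_nt): real quadratic fields, rows

RULES. Row `t6r:XXX` is a file `Pool/Agent/<seat>/T6R/XXX.lean`: `import Pool.Agent.helper3.T6R.Spec` (and landed files), `set_option autoImplicit false`, `namespace Pool.Agent.T6R`,
`open Finset NumberField Pool.Agent.helper3.FT Pool.Agent.helper47.RA Pool.Agent.T5 Pool.Agent.T6`, `open scoped nonZeroDivisors`, and `theorem XXX (hYYY : YYY_stmt) .. : XXX_stmt`, whose EXACT line is in the lock note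
(other T6R rows only as hypotheses; an unused hypothesis may stay). Auxiliary lemmas are prefixed `XXX_`. No `convert`, `congr!`, `native_decide`, no double quotes.

AVAILABLE (imported, cite freely): namespace `Pool.Agent.helper3.FT` (`QF.Y_add`, `QF.Y_sub`, `QF.Y_int`, `QF.Y_int_mul`, `QF.Y_cj`, `QF.Y_eq`, `QF.exists_re`, `QF.lin`, `QF.norm_form`, `QF.absNorm_eq`, `QF.exists_norm`, `QF.exists_trace`, `QF.Y_eq_zero_iff`, `QF.Y_mul_Y`, `QF.dvd_of_dvd`,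
`QF.mul_bar`, `QF.bar_mul`, `QF.bar_pow`, `QF.bar_span`, `QF.bar_bar`, `QF.absNorm_bar`, `pow_inj`, `exists_div_aux`, `exists_full_of`, `Full.gcd_dvd`, `Full.h52_red`, `Full.trβ`, `Full.trγ`, `fund_unique`, `h52_ext`, `exists_QF`, `main_bound`, `count_SS`, `count_ZZ`, `sum_SD`, `sum_ZD`, `h52_Rel`, ..: no sign condition on `D`);
namespace `Pool.Agent.helper26.T5`: `lba : LBA` (basis of an ideal, any sign), `AllL.aLRD : LRD` (any sign), `lbb_bilin`. Namespace `Pool.Agent.T5`: `ADIN`, `ATPL` (models).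

NOTATION in the proofs: `s = √D`; `A = xA θ`, `B = xB θ` (`A⁵ = |emA θ|`), `P² = A² + B² = sz θ`; for `α ∈ a²`: `V = emA α / A²`, `W = emB α / B²` (real numbers with sign), `q = V² + W² = qf θ α`; `z(α) = V + i W`.
-/

namespace Pool.Agent.T6R

open Finset NumberField Pool.Agent.helper3.FT Pool.Agent.helper47.RA Pool.Agent.T5 Pool.Agent.T6
open scoped nonZeroDivisors

/-! ## Block 1: tuples -/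

/-- **RWG** (medium; from WPR, WNU of T6; model `Pool/Agent/helper13/T6/WGF.lean`, which is the same for `Cen`).
PROOF. As WGF, with `κ' = min κ 1`: `Bx κ` implies the same bounds with `κ'`, and `κ'² ≤ κ' ≤ κ`. `Y > 0` (`|Z| ≤ Y` and `Y Y₂ > 0`) and `Y ≥ 1` (`WGF_Y1`). A tuple `t₀ ∈ F` gives `Blk (κ'²) 6 (N d²) Y Y₂ t₀.1.1 t₀.1.2`, so WNU gives `1 ≤ κ'² sN`, `1 ≤ κ'² sK` (scale `N d²`).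
Blocks: DYB (`Pool/Agent/helper59/T5/DYB.lean`) with `A = κ'² sN`, `B = 2 sN` for `n` and `A = κ'² sK`, `B = 2 sK` for `k`: at most `(2 + 2 log (2/κ'²))²` blocks `(N₁, K₁)`, all in `Blk (κ'²) 6` (compare `Pool/Agent/helper59/T5/CBR.lean`). `|m| ≤ 2 sM ≤ (6/κ') sM`, `|g| ≤ 2 sG ≤ 8 sG`.
`|Z| ≤ Y`: `F` is the union of the parts with `Z ∈ (z₀, z₀ + Y]`, `z₀ ∈ {-2Y, -Y, 0}`: WPR for each, `V = Y`. -/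
def RWG_stmt : Prop := LFS_stmt → WGR_stmt

/-- **RTD** (short to medium; from TGM, TCH, TSP, TNA, TNB, TEU of T6; copy of `Pool/Agent/helper49/T6/TD1.lean` and `Pool/Agent/helper52/T6/TDF.lean`).
PROOF. Replace `Cen κ` by `Bx κ` everywhere in TD1 and TDF; only `IsT` (the field `tt`) and the bound WG are used. -/
def RTD_stmt : Prop := WGR_stmt → LOCA_stmt → LOCB_stmt → TDR_stmt

/-- **RB0** (medium; from BXA, BXB, BLU, RE1, RE2, TR of T5; model `Pool/Agent/helper18/T5/BCA.lean`). One block.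
PROOF. As BCA. `V = ⌊x⁴⌋₊ + 1` (`x⁴ ≤ V ≤ 2x⁴`), `M = ⌊x² N₁⌋₊ + 1` (`x² N₁ ≤ M ≤ 2 x² N₁`), `b = y⁴ N₁/x² ≥ 1/2` (`x² ≤ x² K₁ ≤ 2 y² N₁`, `y ≥ 1`), `G = 2⌊b⌋₊ + 2` (`b ≤ G ≤ 6 b`), `H = ⌊N₁³ K₁/(64 V)⌋₊`. The integers `m ∈ (m₀, m₀ + x² N₁]` lie in an `Ico` of length `M`, the `g` with `|g| ≤ b` in an `Ico` of length `G`,
the `Z ∈ (z₀, z₀ + x⁴]` in an `Ico` of length `V`. (1) `H ≥ 1`: `BXH x y S N₁ K₁ M G H` holds (`N₁³K₁ ≤ 128 H V ≤ 256 H x⁴`, `64 H x⁴ ≤ 64 H V ≤ N₁³K₁`). For `(n,k) ∈ W = pairs N₁ K₁ 1` the `(m,g,Z)` lie in `fibG (P = 1, q = n³ k)` with the residues of RE1, RE2 (`BCA_res`). BLU with `e = y = q₁ = q₂ = 1`,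
`T = ⌈C (x y)^16⌉₊`, exponent `ε/16`, and BXA (if `x² ≤ N₁K₁`) or BXB. All of `N₁, K₁, M, G, H, a i` are at most `C (x y)^8`. Main term `(2/H)(M+1)(G+1) N₁K₁ ≤ C y⁴ N₁³K₁/H ≤ C x⁴y⁴`, error `C T^(ε/16) SB x y S`. (2) `H = 0`: `N₁³K₁ < 64 V ≤ 128 x⁴`; for given `(n,k,m,g)` the `Z` lie in one class modulo `n³k ≥ N₁³K₁/16`:
at most `V/(n³k) + 1 ≤ C x⁴/(N₁³K₁)`, in total `N₁K₁ M G C x⁴/(N₁³K₁) ≤ C x⁴y⁴ ≤ C SB` (`BCA_SB`). -/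
def RB0_stmt : Prop := ∀ ε : ℝ, 0 < ε → ∃ C : ℝ, 1 ≤ C ∧ ∀ (x y S m₀ z₀ : ℝ) (N₁ K₁ : ℕ), 1 ≤ x → 1 ≤ y → 0 < S → S ≤ 1 →
  1 ≤ N₁ → 1 ≤ K₁ → (N₁ : ℝ) ≤ 8 * x ^ 2 * S → (K₁ : ℝ) ≤ 8 * y ^ 2 * S → x ^ 2 * K₁ ≤ 2 * y ^ 2 * N₁ → ∀ F : Finset Tpl,
  (∀ t ∈ F, IsT t ∧ N₁ < 2 * t.1.1 ∧ t.1.1 ≤ N₁ ∧ K₁ < 2 * t.1.2 ∧ t.1.2 ≤ K₁ ∧ m₀ < t.2.1 ∧ (t.2.1 : ℝ) ≤ m₀ + x ^ 2 * N₁ ∧
    x ^ 2 * |(t.2.2.1 : ℝ)| ≤ y ^ 4 * N₁ ∧ z₀ < t.2.2.2 ∧ (t.2.2.2 : ℝ) ≤ z₀ + x ^ 4) →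
  (F.card : ℝ) ≤ C * (x * y) ^ ε * SB x y S

/-- **RBL** (medium; from RB0). All blocks of the box, off the critical range.
PROOF. We may assume `κ ≤ 1` and `F` nonempty. `x = Y^(1/4)`, `S = √(Y Y₂/N) ≤ 1` (`Y Y₂ ≤ N^(1 - 3δ/4)`), `y = √(2/κ) Y₂^(1/4)`, so `y² = (2/κ) √Y₂`. `sN = x² S`, `sK = √Y₂ S`, `sM = x⁴ S`, `sG = Y₂ S`. DYB (`Pool/Agent/helper59/T5/DYB.lean`) for `n` with `A = max 1 (κ sN)`, `B = 2 sN` (`1 ≤ n ≤ 2 sN`, `κ sN ≤ 2 sN`, so `A ≤ B`), the same for `k`: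
at most `(2 + 2 log (2/κ))²` blocks with `κ x² S ≤ N₁ ≤ 4 x² S`, `K₁ ≤ 4 √Y₂ S ≤ 8 y² S`. `x² K₁ ≤ 4 x² √Y₂ S ≤ (4/κ) √Y₂ N₁ = 2 y² N₁`. `|m| ≤ 2 x⁴ S ≤ (2/κ) x² N₁`: at most `4/κ + 2` intervals of length `x² N₁`. `x² |g| ≤ 2 x² Y₂ S ≤ (2/κ) Y₂ N₁ ≤ y⁴ N₁`. `|Z| ≤ Y = x⁴`: three intervals. RB0 with `ε = δ/4`:
`#F ≤ C (x y)^(δ/4) SB x y S`, `x y ≤ C N^(1/4)`. With `x ≤ N^(1/8 - δ/4)`, `y ≤ C N^(1/8 + δ/16)`, `S² ≤ N^(-3δ/4)`: `x⁴y⁴ ≤ C N^(1 - 3δ/4)`, `x⁶, y⁶S, x⁵yS ≤ C N^(4/5)`, `(y⁶x + x⁶y + x⁷) S² ≤ C N^(9/10)`, `(x⁶y² + x⁷y) S³ ≤ C N^(1 - 3δ/4)`. Total `≤ C N^(1 - 3δ/4 + δ/16) ≤ N^(1 - δ/4)` for large `N`. -/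
def RBL_stmt : Prop := ∀ κ δ : ℝ, 0 < κ → 0 < δ → δ ≤ 1 / 10 → ∃ N₀ : ℝ, ∀ N Y Y₂ : ℝ, N₀ ≤ N → 1 ≤ Y → 1 ≤ Y₂ →
  Y ≤ N ^ (1 / 2 - δ) → Y₂ ≤ N ^ (1 / 2 + δ / 4) → ∀ F : Finset Tpl, (∀ t ∈ F, Bx κ N Y Y₂ t) → (F.card : ℝ) ≤ N ^ (1 - δ / 4)

/-! ## Block 2: algebra -/

/-- **REM** (short to medium). The two embeddings.
PROOF. `a = r + y ω` with `r = (hspan a).choose`, `y = Y a` (definition of `Y`, `choose_spec.choose_spec`); the coordinates are unique (`QF.lin`). `σ = (t + s)/2`, `σ' = (t - s)/2`: `σ² = k + t σ` (`t² = t`, `D = t + 4 k`, `s² = D`), the same for `σ'`. Sum and product: `(r + y ω)(r' + y' ω) = (r r' + k y y') + (r y' + r' y + t y y') ω` (`Q.hω`), the integers have coordinates `(c, 0)`.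
`cj a = (r + t y) - y ω` (`QF.cj_form`). `emA a - emB a = y s`. `emA a * emB a = r² + t r y - k y²`, which is `a * cj a` (`QF.norm_form`), and `QF.absNorm_eq`. `a ≠ 0`: `absNorm ≠ 0`. Finiteness: `|y| s ≤ 2B`, `s ≥ 1`, and `|r| ≤ B + |y| (1 + s)`: the set is contained in the image of a finite set of pairs `(r, y)`. -/
def REM_stmt : Prop := ∀ (K : Type) [Field K] [NumberField K] (Q : QF K), 0 < Q.D →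
  (∃ f g : 𝓞 K →+* ℝ, (∀ a, f a = emA Q a) ∧ ∀ a, g a = emB Q a) ∧
  (∀ a, emA Q (Q.cj a) = emB Q a ∧ emB Q (Q.cj a) = emA Q a) ∧
  (∀ a, emA Q a - emB Q a = Q.Y a * √(Q.D : ℝ)) ∧
  (∀ a, (Ideal.absNorm (Ideal.span {a}) : ℝ) = |emA Q a * emB Q a|) ∧
  (∀ (a : 𝓞 K) (c : ℤ), a * Q.cj a = c → (c : ℝ) = emA Q a * emB Q a) ∧
  (∀ a, a ≠ 0 → emA Q a ≠ 0 ∧ emB Q a ≠ 0) ∧
  ∀ B : ℝ, {a : 𝓞 K | |emA Q a| ≤ B ∧ |emB Q a| ≤ B}.Finite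

/-- **RVV** (short to medium; from REM). The absolute values of `QF`.
PROOF. `a = r + y ω`, `M = max (|emA a|, |emB a|)`. `|y| s ≤ 2M`, `s ≥ 1`, `|r| ≤ M + |y| (1 + s) ≤ 5M`, so `v₁ a ≤ |r| + |y| v₁ ω ≤ C₀ M` (`v₁_add`, `v₁_mul`, `v₁_int`), `C₀ = 5 + 2 v₁ ω`. Apply this to `a^n`: `(v₁ a)^n ≤ C₀ M^n` for all `n`, so `v₁ a ≤ M` (if `v₁ a > M`: for `M = 0` take `n = 1`; for `M > 0` the powers of `v₁ a / M > 1` are unbounded). The same for `v₂`.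
`v₁ a * v₂ a = absNorm (a) = |emA a| |emB a| = M m`, `m` the minimum (`Q.hnorm`, REM). `(M - v₁)(M - v₂) ≥ 0`: `M (v₁ + v₂) ≤ M² + M m`. -/
def RVV_stmt : Prop := ∀ (K : Type) [Field K] [NumberField K] (Q : QF K), 0 < Q.D → ∀ a : 𝓞 K,
  Q.v₁ a + Q.v₂ a ≤ |emA Q a| + |emB Q a|

/-- **RLB** (medium; from REM; model `Pool/Agent/helper11/T5/LBB.lean`). A basis whose first vector is shortest.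
PROOF. `f₁, f₂` from `lba` (`LBA`, any sign), `|Y (cj f₁ * f₂)| = absNorm I`. `qw` has a minimum on the nonzero elements of `I` (finitely many elements with `qw ≤` a given bound: REM, last clause), attained at `e₁ = x f₁ + y f₂`. `gcd (x, y) = 1` (if `p` divides both, `e₁ = p β`, `β ∈ I`, `qw β = qw e₁ / p²`, and `qw e₁ > 0`). Let `x v' - y u' = 1`, `g = u' f₁ + v' f₂`:
`e₁, g` generate `I` over `ℤ` and `|Y (cj e₁ * g)| = absNorm I` (`lbb_bilin`). `z(α) = emA α/u + i emB α/v ∈ ℂ`, additive, `‖z(α)‖² = qw α`; `Im (conj z(e₁) z(g)) = (emA e₁ emB g - emB e₁ emA g)/(u v)` and `emA (cj e₁ g) - emB (cj e₁ g) = emB e₁ emA g - emA e₁ emB g = Y (cj e₁ g) s`, so its absolute value is `V = absNorm I s/(u v)`.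
`e₂ = g - j e₁`, `j` the integer nearest to `Re (conj z(e₁) z(g))/‖z(e₁)‖²`. Then `|Re (conj z(e₁) z(e₂))| ≤ ‖z(e₁)‖²/2` and `‖z(e₁)‖² ‖z(e₂)‖² = Re² + Im² ≤ ‖z(e₁)‖⁴/4 + V²`; `e₂ ≠ 0`, so `‖z(e₁)‖ ≤ ‖z(e₂)‖`: `(3/4) ‖z(e₁)‖⁴ ≤ V²`, `qw e₁ ≤ (2/√3) V ≤ 2 V`. -/
def RLB_stmt : Prop := ∀ (K : Type) [Field K] [NumberField K] (Q : QF K), 0 < Q.D → ∀ (I : Ideal (𝓞 K)), I ≠ ⊥ →
  ∀ u v : ℝ, 0 < u → 0 < v → ∃ e₁ e₂ : 𝓞 K, BAS Q I e₁ e₂ ∧ (∀ α ∈ I, α ≠ 0 → qw Q u v e₁ ≤ qw Q u v α) ∧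
    u * v * qw Q u v e₁ ≤ 2 * (√(Q.D : ℝ) * Ideal.absNorm I)

/-- **RSZ** (medium; from REM). Sizes of the elements of a `Full`.
PROOF. `θ = F.α`, `A, B, V, W` for `β = F.β`. All norms are nonzero (`F.nβ`, `F.nγ`, `F.hZ`, `F.hΛ`), so all elements are nonzero. `absNorm (θ) = absNorm (a)⁵ = |Z|⁵` (`F.iα`, `F.na`), so `A⁵ B⁵ = |emA θ emB θ| = |Z|⁵`, `A B = |Z|`. `emA β emB β = Z² Λ` (REM, `F.nβ`), so `|V W| = |Λ|`. `emA γ emB γ = Z Λ²`. `F.e3`: `(emA β)² emB γ = Λ² emA θ`;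
multiply by `emA γ`: `(emA β)² Z Λ² = Λ² emA θ emA γ`, `|emA γ| = |Z| A⁴ V²/A⁵ = B V²`; from `F.e3` for `emB`: `|emB γ| = A W²`. `F.e1`: `|emA u| = |emA β emB γ|/|Λ| = A² |V| A W²/|V W| = A³ |W|`, `|emB u| = B³ |V|`. `F.e2`: `|emA v| = |emA β emA γ|/|Z| = A |V|³`, `|emB v| = B |W|³`.
`|Y x| s = |emA x - emB x| ≤ |emA x| + |emB x|`. With `A, B ≤ P`, `R² = V² + W²`, Cauchy: `A²|V| + B²|W| ≤ √(A⁴+B⁴) R ≤ P² R`; `B V² + A W² ≤ P R²`; `A³|W| + B³|V| ≤ √(A⁶+B⁶) R ≤ P³ R`; `A |V|³ + B |W|³ ≤ P √(V⁶+W⁶) ≤ P R³`; `A B ≤ P²/2`, `|V W| ≤ R²/2`. Last: `|Y γ| s = |emA γ - emB γ| ≥ ||emA γ| - |emB γ|| = |B V² - A W²|`. -/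
def RSZ_stmt : Prop := ∀ (K : Type) [Field K] [NumberField K] (Q : QF K), 0 < Q.D → ∀ F : Full Q,
  (0 < xA Q F.α ∧ 0 < xB Q F.α ∧ xA Q F.α * xB Q F.α = |(F.Z : ℝ)| ∧ 0 < sz Q F.α ∧ 0 < qf Q F.α F.β) ∧
  (|(Q.Y F.β : ℝ)| * √(Q.D : ℝ) ≤ sz Q F.α * √(qf Q F.α F.β) ∧
    |(Q.Y F.γ : ℝ)| * √(Q.D : ℝ) ≤ √(sz Q F.α) * qf Q F.α F.β ∧
    |(Q.Y F.u : ℝ)| * √(Q.D : ℝ) ≤ sz Q F.α * √(sz Q F.α) * √(qf Q F.α F.β) ∧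
    |(Q.Y F.v : ℝ)| * √(Q.D : ℝ) ≤ √(sz Q F.α) * (qf Q F.α F.β * √(qf Q F.α F.β))) ∧
  (|(F.Z : ℝ)| ≤ sz Q F.α ∧ |(F.Λ : ℝ)| ≤ qf Q F.α F.β) ∧
  (|emA Q F.β| + |emB Q F.β| ≤ sz Q F.α * √(qf Q F.α F.β) ∧
    |emA Q F.γ| + |emB Q F.γ| ≤ √(sz Q F.α) * qf Q F.α F.β) ∧
  |xB Q F.α * (emA Q F.β / xA Q F.α ^ 2) ^ 2 - xA Q F.α * (emB Q F.β / xB Q F.α ^ 2) ^ 2| ≤ |(Q.Y F.γ : ℝ)| * √(Q.D : ℝ)

/-- **RFU** (short to medium; model `Pool/Agent/*/T5/LFU.lean`). Existence of the `Full` with prescribed signs of `Y`.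
PROOF. `(α) = a² L` (`Ideal.dvd_iff_le`), `L` primitive by `Cont1`. `Z₀ = absNorm a`, `(Z₀) = a ā` (`QF.mul_bar`): `(Z₀ α²) = a⁵ ā L²`, so `Z₀ α² = γ θ`, `(γ) = ā L²` (`exists_div_aux`, `θ ≠ 0`). For signs `σ, τ ∈ {1, -1}`: `(σ α) = (α)`, `(τ γ) = (γ)`, `exists_full_of` gives `F` with `F.β = σ α`, `F.γ = τ γ`, `F.a = a`. Choose the signs such that `Y` is `≥ 0` (`Y (-x) = - Y x`).
`F.e3`, `F.nγ`: `F.α Λ² τγ = β² cj(F.γ) F.γ = α² F.Z Λ²`, so `τ γ F.α = F.Z α²`; with `γ θ = Z₀ α²` and `F.Z = ± Z₀` (`F.na`): `F.α = ± θ`. -/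
def RFU_stmt : Prop := ∀ (K : Type) [Field K] [NumberField K] (Q : QF K) (a : Ideal (𝓞 K)) (θ α : 𝓞 K), Prim a → a ≠ ⊥ →
  Ideal.span {θ} = a ^ 5 → α ≠ 0 → α ∈ a ^ 2 → Cont1 a α →
  ∃ F : Full Q, F.a = a ∧ (F.β = α ∨ F.β = -α) ∧ (F.α = θ ∨ F.α = -θ) ∧ 0 ≤ Q.Y F.β ∧ 0 ≤ Q.Y F.γ

/-- **RGC** (short to medium; copy of `Pool/Agent/helper55/T6/HGC.lean` without the sign of `D`). The common divisor of two conductors.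
PROOF. As HGC. `AllL.aLRD` (any sign) for `F` and `F'`: `d = gd = r e`, `r = gcd (d, |Z|)` squarefree, `e` prime to `r |Z|`, primes `p ∣ r` divide `D` and `F.Λ`. `gcd (d, d') = r₀ e₀` (`HGC_gcd`). `e₀ ∣ Y β, Y β'`, so `e₀ ∣ Y (cj β * β')` (`QF.h96_Y_mul`, `QF.h96_Y_cj`) `= ± m Z²`, `e₀ ∣ m`. `r₁` = the odd part of `r₀`. In place of LRM (stated for `D < 0`):
`cj β β' = Z² δ` (`ā² a² = (Z²)`, `F.iβ`), `N(β) N(β') = Z⁴ Λ Λ' = Z⁴ N(δ)` (`F.nβ`), so `N(δ) = Λ Λ'` is divisible by `p²` for every prime `p ∣ r₁` (odd, `p ∣ D`, `p² ∤ D`: `Q.hD`); `δ = x + y ω`, `4 N(δ) = (2x + t y)² - D y²`: `p ∣ 2x + t y`, `p² ∣ D y²`, `p ∣ y`. So `r₁ ∣ y = Y δ`, `Y (cj β β') = Z² y = ± m Z²`: `r₁ ∣ m`. `gcd (d, d') ≤ 2 r₁ e₀ ≤ 2 |m|`. -/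
def RGC_stmt : Prop := ∀ (K : Type) [Field K] [NumberField K] (Q : QF K) (F F' : Full Q), F.a = F'.a → Q.Y F.β ≠ 0 → Q.Y F'.β ≠ 0 →
  ∀ m : ℤ, m ≠ 0 → |Q.Y (Q.cj F.β * F'.β)| = |m| * (Ideal.absNorm F.a : ℤ) ^ 2 →
  (Nat.gcd (gd Q F.β F.γ) (gd Q F'.β F'.γ) : ℤ) ≤ 2 * |m|

/-- **RAT** (short to medium; copy of the row ATPL, `Pool/Agent/*/T5/ATPL.lean`, without the signs of `Z`, `Λ`). The reduced tuple.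
PROOF. `d = gcd (Y β, Y γ) > 0`; `Full.h52_red`: `n = d n₁, k = d k₁, m = d m₁, g = d g₁`, `m₁ g₁ = Λ n₁² - Z k₁²`, `-(k₁ y) = m₁² - Z n₁²`, `n₁ y' = g₁² - Λ k₁²`, `D (d n₁ k₁)² = (Z g₁ - Λ m₁)² - 4 Z² Λ k₁²`. `t = ((n₁, k₁), (m₁, g₁, Z))`. `lam t = Λ`, `dis t = D d²`. `c1`: `Z k₁⁴ + m₁ g₁ k₁² - g₁² n₁² = - n₁³ y'`; `c2`: `m₁² - Z n₁² = - k₁ y`. -/
def RAT_stmt : Prop := ∀ (K : Type) [Field K] [NumberField K] (Q : QF K) (F : Full Q), 0 < Q.Y F.β → 0 < Q.Y F.γ →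
  ∃ (d : ℕ) (t : Tpl), DatR Q F.a F.β F.γ d t ∧ d = gd Q F.β F.γ ∧ F.Z = t.2.2.2 ∧ Q.Y F.u = d * t.2.1 ∧ Q.Y F.v = d * t.2.2.1

/-- **RDI** (short; copy of the row ADIN, `Pool/Agent/*/T5/ADIN.lean`). Everything is determined by `t`.
PROOF. `D d² = dis t = D d'²`, `D ≠ 0`: `d = d'`. `F, F'` the `Full`s: `F.Z = F'.Z`, `F.Λ = F'.Λ`, `Y` of `β, γ, u, v` are equal. `Full.trβ`: `(Y γ)(β + cj β) = Z Y v - Λ Y u`, `Y γ ≠ 0`: `β + cj β` equal, so `β = β'` (`h52_ext`), the same for `γ` (`Full.trγ`). `F.e3`: `Λ² F.α = β² cj γ`, so `F.α = F'.α`, `(F.α) = a⁵`, `pow_inj`. (Compare `Full.tup_inj`.) -/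
def RDI_stmt : Prop := ∀ (K : Type) [Field K] [NumberField K] (Q : QF K) (a a' : Ideal (𝓞 K)) (α γ α' γ' : 𝓞 K) (d d' : ℕ) (t : Tpl),
  DatR Q a α γ d t → DatR Q a' α' γ' d' t → d = d' ∧ a = a' ∧ α = α'

/-- **RIN** (short to medium; from RDI). The injection.
PROOF. `{t | Bx κ N Y Y₂ t}` is finite (all five coordinates are bounded). (1) `x ↦ (d, t)` (choose) is injective on `GSR` by RDI, with values in the finite set `{(d, t) | 1 ≤ d, d ≤ H, Bx κ (N d²) Y Y₂ t}`. (2) `F` = this finite set intersected with `d² ∣ dis t` (`DatR.D`: `dis t = D d²`). The map `(D, x) ↦ (d, t)` on the disjoint union over `D ∈ DNR N` (chosen field `E` of `SF`, `E.Q.D = D`) is injective: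
`D d² = dis t = D' d²`, so `D = D'` (`d ≥ 1`), then RDI. (Model: `Pool/Agent/helper92/T6/HINJ.lean`.) -/
def RIN_stmt : Prop :=
  (∀ (K : Type) [Field K] [NumberField K] (Q : QF K) (κ N Y Y₂ H : ℝ), (GSR Q κ N Y Y₂ H).Finite) ∧
  ∀ κ N Y Y₂ H : ℝ, ∃ F : Finset (ℕ × Tpl), (∀ x ∈ F, 1 ≤ x.1 ∧ (x.1 : ℝ) ≤ H ∧ Bx κ (N * (x.1 : ℝ) ^ 2) Y Y₂ x.2 ∧
      (x.1 : ℤ) ^ 2 ∣ dis x.2) ∧
    ∑ D ∈ DNR N, SF (fun _ E => ((GSR E.Q κ N Y Y₂ H).ncard : ℝ)) D ≤ (F.card : ℝ)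

/-! ## Block 3: many good elements for one ideal -/

/-- **RGE** (medium; plane geometry, Mathlib only; model `Pool/Agent/helper71/T6/HGEO.lean`). A long row of points in good directions.
PROOF. Five unit vectors (candidates) `ζ ∈ {1, (4+3i)/5, (1+3i)/√10, (-1+3i)/√10, (-4+3i)/5}`: for two different ones `|Im (conj ζ ζ')| ≥ 9/(5√10) > 0.569` (the ten values are `3/5, 3/√10, 3/√10, 3/5, 9/(5√10), 3/√10, 24/25, 3/5, 3/√10, 9/(5√10)`). For a unit vector `w` at most one candidate has `|Im (conj w ζ)| < 0.28`: with `p = conj w ζ`, `q = conj w ζ'`, `‖p‖ = ‖q‖ = 1`, `conj p q = conj ζ ζ'`,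
`|Im (conj p q)| = |p.re q.im - p.im q.re| ≤ |q.im| + |p.im| < 0.56`. So one candidate `ζ` is good for the four unit vectors `w₁, w₂, w₃, u₁/‖u₁‖` (`u₁ ≠ 0` as `V > 0`). `σ = |Im (conj u₁ ζ)| ∈ [0.28 ‖u₁‖, ‖u₁‖]`. `(R/3) σ/V ≥ R 0.28 ‖u₁‖/(3V) ≥ 1`, so there is `e` with `(R/3) σ/V ≤ 2^e < 2 (R/3) σ/V`; `t = 2^e V/σ`, `R/3 ≤ t ≤ 2R/3`.
`j = ± 2^e` with `j Im (conj u₁ u₂) = Im (conj u₁ (t ζ))`; `tζ - j u₂ = x* u₁` with `x*` real; `x₀ = ⌈x*⌉`; `|j| V = t σ ≤ R ‖u₁‖`. For `x` as in the statement: `z = x u₁ + j u₂ = tζ + (x - x*) u₁`, `0 ≤ x - x* ≤ 1 + (x - x₀)`, `‖z - tζ‖ ≤ ‖u₁‖ + R/300 ≤ R/150 ≤ t/50`. So `‖z‖ ≥ 49t/50 ≥ R/4`, `‖z‖ ≤ 51t/50 ≤ R`,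
`|Im (conj w z)| ≥ 0.28 t - t/50 = 0.26 t ≥ (51t/50)/4 ≥ ‖z‖/4`. -/
def RGE_stmt : Prop := ∀ (u₁ u₂ w₁ w₂ w₃ : ℂ) (R V : ℝ), 0 < V → |((starRingEnd ℂ) u₁ * u₂).im| = V → ‖w₁‖ = 1 → ‖w₂‖ = 1 → ‖w₃‖ = 1 →
  12 * V ≤ R * ‖u₁‖ → 300 * ‖u₁‖ ≤ R →
  ∃ (j x₀ : ℤ) (e : ℕ), |j| = 2 ^ e ∧ |(j : ℝ)| * V ≤ R * ‖u₁‖ ∧
    ∀ x : ℤ, x₀ ≤ x → ((x : ℝ) - x₀) * (300 * ‖u₁‖) ≤ R →
      R / 4 ≤ ‖(x : ℂ) * u₁ + j * u₂‖ ∧ ‖(x : ℂ) * u₁ + j * u₂‖ ≤ R ∧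
      ‖(x : ℂ) * u₁ + j * u₂‖ ≤ 4 * |((starRingEnd ℂ) w₁ * ((x : ℂ) * u₁ + j * u₂)).im| ∧
      ‖(x : ℂ) * u₁ + j * u₂‖ ≤ 4 * |((starRingEnd ℂ) w₂ * ((x : ℂ) * u₁ + j * u₂)).im| ∧
      ‖(x : ℂ) * u₁ + j * u₂‖ ≤ 4 * |((starRingEnd ℂ) w₃ * ((x : ℂ) * u₁ + j * u₂)).im|

/-- **RRO** (medium; from RGE, RSZ, RFU, REM; model `Pool/Agent/helper16/T6/HROW.lean`). The row in `a²`.
PROOF. `A, B > 0` (`θ ≠ 0`), `A B = absNorm a` (`absNorm (θ) = absNorm a ^ 5`). `z(α) = emA α/A² + i emB α/B² ∈ ℂ`, additive, `‖z(α)‖² = qf θ α`; `u₁ = z(e₁)`, `u₂ = z(e₂)`; `|Im (conj u₁ u₂)| = |Y (cj e₁ e₂)| s/(A B)² = s` (as in RLB; `absNorm (a²) = (A B)²`): `V = s`. `R = √T`: `12 s ≤ √T √(qf e₁)` and `300 ‖u₁‖ ≤ R` from the two hypotheses.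
`w₁ = (B² + i A²)/√(A⁴+B⁴)`, `w₂ = (√A + i √B)/√(A+B)`, `w₃ = (√A - i √B)/√(A+B)`. RGE gives `j, x₀, e`. Let `x` be odd as in the statement, `α = x e₁ + j e₂`, `z = z(α) = x u₁ + j u₂ = V₁ + i W₁`, `z ≠ 0`, so `α ≠ 0`. `Cont1`: as `HROW_cont` (a prime `p` with `(p) a² ∣ (α)` divides `j = ± 2^e` and `x`). RFU gives `F`; `sz (F.α) = sz θ`, `xA (F.α) = A`, ..., `qf (F.α) (F.β) = qf θ α = ‖z‖² ∈ [T/16, T]`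
(`emA (-x) = - emA x`). Upper bounds: RSZ with `√qf ≤ √T`. Lower bounds: `|Y β| s = |emA α - emB α| = |A² V₁ - B² W₁| = √(A⁴+B⁴) |Im (conj w₁ z)| ≥ (sz θ/√2) ‖z‖/4 ≥ sz θ √T/(16 √2)`, `16 √2 ≤ 24`. `|Im (conj w₂ z)| |Im (conj w₃ z)| = |√A W₁ - √B V₁| |√A W₁ + √B V₁|/(A+B) = |A W₁² - B V₁²|/(A+B)`, so by RSZ (last clause)
`|Y γ| s ≥ (A+B) ‖z‖²/16 ≥ √(sz θ) T/256` (`A + B ≥ √(A²+B²)`). So `Y β, Y γ ≠ 0`, hence `> 0`. `|j| s ≤ √T √(qf e₁)` is the second claim of RGE. -/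
def RRO_stmt : Prop := ∀ (K : Type) [Field K] [NumberField K] (Q : QF K), 0 < Q.D →
  ∀ (a : Ideal (𝓞 K)) (θ e₁ e₂ : 𝓞 K), Prim a → a ≠ ⊥ → Ideal.span {θ} = a ^ 5 → BAS Q (a ^ 2) e₁ e₂ →
  ∀ T : ℝ, 0 < T → 144 * (Q.D : ℝ) ≤ T * qf Q θ e₁ → 90000 * qf Q θ e₁ ≤ T →
  ∃ j x₀ : ℤ, j ≠ 0 ∧ |(j : ℝ)| * √(Q.D : ℝ) ≤ √T * √(qf Q θ e₁) ∧
    ∀ x : ℤ, x₀ ≤ x → ((x : ℝ) - x₀) * (300 * √(qf Q θ e₁)) ≤ √T → Odd x →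
      ∃ F : Full Q, F.a = a ∧ (F.β = (x : 𝓞 K) * e₁ + j * e₂ ∨ F.β = -((x : 𝓞 K) * e₁ + j * e₂)) ∧ (F.α = θ ∨ F.α = -θ) ∧
        0 < Q.Y F.β ∧ 0 < Q.Y F.γ ∧
        sz Q θ * √T ≤ 24 * ((Q.Y F.β : ℝ) * √(Q.D : ℝ)) ∧ √(sz Q θ) * T ≤ 300 * ((Q.Y F.γ : ℝ) * √(Q.D : ℝ)) ∧
        (Q.Y F.β : ℝ) * √(Q.D : ℝ) ≤ sz Q θ * √T ∧ (Q.Y F.γ : ℝ) * √(Q.D : ℝ) ≤ √(sz Q θ) * T ∧
        |(Q.Y F.u : ℝ)| * √(Q.D : ℝ) ≤ sz Q θ * √(sz Q θ) * √T ∧ |(Q.Y F.v : ℝ)| * √(Q.D : ℝ) ≤ √(sz Q θ) * (T * √T) ∧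
        |(F.Z : ℝ)| ≤ sz Q θ

/-- **RBA** (short to medium; from RGC and HLC of T6; model `Pool/Agent/helper34/T6/HBAD.lean`). Few elements of a row have a large conductor.
PROOF. `α_x = x e₁ + j e₂`; for `x ∈ S` let `F_x` be the `Full`, `d_x = gd Q F_x.β F_x.γ`. HLC with `y = Y θ`, `M = 2 W`. `Y θ ≠ 0` (if `θ = c ∈ ℤ` then `ā⁵ = (cj θ) = a⁵`, `ā = a` (`pow_inj`), `a² = (Z₀)`, `a⁵ = (Z₀²) a = (θ)`, so `a` is principal). `d_x ∣ Y (F_x.α) = ± Y θ` (`Full.gcd_dvd`, `d_x ≠ 0`).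
`x ≠ x'`: `Y (cj α_x * α_x') = j (x - x') Y (cj e₁ * e₂)` up to sign (`lbb_bilin`), absolute value `|j (x - x')| absNorm (a²)`, the signs of `F.β` do not matter; RGC with `m = j (x - x') ≠ 0`: `gcd (d_x, d_x') ≤ 2 |j (x - x')| ≤ 2 W`. -/
def RBA_stmt : Prop := ∀ (K : Type) [Field K] [NumberField K] (Q : QF K),
  ∀ (a : Ideal (𝓞 K)) (θ e₁ e₂ : 𝓞 K), a ≠ ⊥ → ¬ a.IsPrincipal → Ideal.span {θ} = a ^ 5 → BAS Q (a ^ 2) e₁ e₂ →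
  ∀ (j : ℤ) (S : Finset ℤ) (H W : ℝ), j ≠ 0 → 1 ≤ H → 1 ≤ W →
  (∀ x ∈ S, ∃ F : Full Q, F.a = a ∧ (F.β = (x : 𝓞 K) * e₁ + j * e₂ ∨ F.β = -((x : 𝓞 K) * e₁ + j * e₂)) ∧
    (F.α = θ ∨ F.α = -θ) ∧ Q.Y F.β ≠ 0 ∧ H < (gd Q F.β F.γ : ℝ)) →
  (∀ x ∈ S, ∀ x' ∈ S, |(j : ℝ) * (x - x')| ≤ W) →
  H ^ S.card ≤ |(Q.Y θ : ℝ)| * (2 * W) ^ (S.card ^ 2)

/-- **RCN** (medium; from RRO, RBA, RLB, RAT, REM; model `Pool/Agent/helper72/T6/HCNT.lean`). Many good `α` for one ideal.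
PROOF. `K₀ = ⌈2/η⌉₊ ≥ 1`, `A = (2400 (K₀ + 2))²`, `η' = 1/(2 K₀²)`. `b = √N/(2l)`: `1/4 ≤ b ≤ N^η'`. `T = Y₂ = A N/(2l)`. RLB for `a²` with `u = xA θ ^ 2`, `v = xB θ ^ 2`: `e₁, e₂`, `e₁` minimal for `qf θ`, so `l < q₁ := qf θ e₁ ≤ 2l` (`IMR.lo`, `IMR.hi`). `T q₁ ≥ A N/2 ≥ 144 D`. `T = A N/(2l) ≥ A (2l)/16 ≥ 90000 q₁` (`(2l)² ≤ 16 N`). RRO: `j, x₀`. The row is
`x₀ ≤ x ≤ x₀ + X`, `X = √T/(300 √q₁) ≥ √A b/300 = 8 (K₀ + 2) b`; for `x, x'` in the row `|j (x - x')| ≤ |j| X ≤ T/(300 s) ≤ A b =: W` (`s ≥ √(N/2)`). Good `x`: odd, in the row, `gd Q F.β F.γ ≤ N^η`. If `K₀` different odd `x` of the row are not good, RBA (`S` = these, `H = N^η`): `N² ≤ N^(η K₀) ≤ |Y θ| (2 A b)^(K₀²) ≤ 50 N^(3/4) (2A)^(K₀²) N^(1/2)`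
(`|Y θ| s ≤ A_θ⁵ + B_θ⁵ ≤ (sz θ)^(5/2) ≤ (4 √N)^(5/2)`), false for large `N`. The number of odd `x` in the row is at least `(X - 1)/2 ≥ 4 (K₀ + 2) b - 1/2 ≥ b + K₀`. `P` = the set of the `F.β` of the good `x`; different `x` give different `F.β` (`x e₁ + j e₂ = ± (x' e₁ + j e₂)`, `e₁, e₂` independent, `j ≠ 0`, so the sign is `+` and `x = x'`). `(a, F.β) ∈ GSR`: RAT gives `d = gd`, `t`;
`d n = Y β`, `sN (N d²) = Y √Y₂/(d √N)` etc.; from RRO with `N/2 < D ≤ N`, `Y/2 < sz θ ≤ Y`: `sN/48 ≤ n ≤ √2 sN`, `sK/425 ≤ k ≤ √2 sK`, `|m| ≤ √2 sM`, `|g| ≤ √2 sG`, `|Z| ≤ Y`. -/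
def RCN_stmt : Prop := ∀ η : ℝ, 0 < η → ∃ A η' N₀ : ℝ, 16 ≤ A ∧ 0 < η' ∧
  ∀ (K : Type) [Field K] [NumberField K] (Q : QF K) (N Y l : ℝ) (a : Ideal (𝓞 K)) (θ : 𝓞 K), N₀ ≤ N → 0 < Q.D →
  N / 2 < (Q.D : ℝ) → (Q.D : ℝ) ≤ N → Y ≤ 4 * √N → N ^ (1 / 2 - η') ≤ 2 * l → 2 * l ≤ 4 * √N → IMR Q Y l a θ →
  ∃ P : Finset (𝓞 K), (∀ α ∈ P, (a, α) ∈ GSR Q (1 / 500) N Y (A * N / (2 * l)) (N ^ η)) ∧
    √N / (2 * l) ≤ (P.card : ℝ)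

/-- **RMN** (short to medium; from RCN, RIN; model `Pool/Agent/helper68/T6/HMN.lean`). The number of ideals, critical range.
PROOF. `η` from TDR; `A, η₁, N₁` from RCN with this `η`; `C, N₂` from TDR for `κ = 1/500` and `A`. `η' = min (η₁, η/4, 1/4)`. `Y₂ = A N/(2l)`. `Y ≤ 2l ≤ 4 √N ≤ A √N/4 ≤ Y₂`. `Y₂ ≤ A N/Y ≤ N^η Y` (`Y² ≥ N^(1 - 2η')`, large `N`). `Y Y₂ ≤ A N`. `Y Y₂ ≥ A N Y/(4 √N) ≥ N^(1 - η')`. `2l ≥ Y ≥ N^(1/2 - η₁)`.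
For one `D` (field `E`): the pairs `(a, α)`, `a ∈ IMset`, `α ∈ P_a`, are different elements of the finite set `GSR` (RIN (1)), so `#IMset √N/(2l) ≤ #GSR` (also if `IMset` is infinite, then `ncard = 0`). RIN (2), TDR: `(√N/(2l)) ∑ #IMset ≤ C Y Y₂ = C A N Y/(2l)`. -/
def RMN_stmt : Prop := TDR_stmt → ∃ η' C N₀ : ℝ, 0 < η' ∧ 1 ≤ C ∧ ∀ N Y l : ℝ, N₀ ≤ N → N ^ (1 / 2 - η') ≤ Y → Y ≤ 2 * l →
  2 * l ≤ 4 * √N → ∑ D ∈ DNR N, SF (fun _ E => ((IMset E.Q Y l).ncard : ℝ)) D ≤ C * (√N * Y)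

/-- **RBC** (short to medium; from RCN, RIN, RBL). The number of ideals, `Y` small and `l` large.
PROOF. `η = δ/100`; `A, η₁, N₁` from RCN; `δ' = min (η₁, δ/8)`, `c = δ/8`. `Y₂ = A N/(2l)`: `1 ≤ A √N/4 ≤ Y₂ ≤ A N^(1/2 + δ') ≤ N^(1/2 + δ/4)` for large `N`. As in RMN `#IMset/4 ≤ #IMset √N/(2l) ≤ #GSR` (field `E`), and RIN (2): `∑ #IMset ≤ 4 #F`. For each `d ≤ N^η` the tuples `t` with `(d, t) ∈ F` satisfy `Bx (1/500) N' Y Y₂ t`, `N' = N d² ≥ N`,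
`Y ≤ N'^(1/2 - δ)`, `Y₂ ≤ N'^(1/2 + δ/4)`: RBL: at most `N'^(1 - δ/4) ≤ N^((1 + 2η)(1 - δ/4))`. Total `4 N^η N^(1 + 2η - δ/4) ≤ N^(1 - δ/8)` for large `N` (`3η = 3δ/100 < δ/8`). -/
def RBC_stmt : Prop := ∀ δ : ℝ, 0 < δ → δ ≤ 1 / 10 → ∃ δ' c N₀ : ℝ, 0 < δ' ∧ 0 < c ∧ ∀ N Y l : ℝ, N₀ ≤ N → 1 ≤ Y →
  Y ≤ N ^ (1 / 2 - δ) → N ^ (1 / 2 - δ') ≤ 2 * l → 2 * l ≤ 4 * √N →
  ∑ D ∈ DNR N, SF (fun _ E => ((IMset E.Q Y l).ncard : ℝ)) D ≤ N ^ (1 - c)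

/-! ## Block 4: classes -/

/-- **RTL** (short to medium; copy of `Pool/Agent/helper52/FT/A6f.lean`). Classes and tuples for a general `T`.
PROOF. `h52_Rel` and `h52_Rel_inj` are available; the existence (`h52_Rel_ex`) with `F`, `F.Bdd T` and the class of `F.a` given in place of `exists_full`; the case `Sum.inl ()` is impossible because `c ≠ 1` (in the proof of `h52_Rel_ex` it gives `C = 1`), so the classes inject into `(SD) ⊕ (ZD) ⊕ (ZD)`. -/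
def RTL_stmt : Prop := ∀ (K : Type) [Field K] [NumberField K] (Q : QF K) (T : ℕ), (SD Q.D T).Finite → (ZD Q.D T).Finite →
  {c : ClassGroup (𝓞 K) | c ≠ 1 ∧ c ^ 5 = 1 ∧ ∃ F : Full Q, F.Bdd T ∧
    ∃ h : F.a ∈ nonZeroDivisors (Ideal (𝓞 K)), ClassGroup.mk0 ⟨F.a, h⟩ = c}.ncard ≤ (SD Q.D T).ncard + 2 * (ZD Q.D T).ncard

/-- **RCC** (short to medium; from RLB, RFU, RSZ, RVV). The classes of `CC` have a small `Full`.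
PROOF. `c ∈ CC Q U` with `I, θ`. RLB for `I²`, `u = xA θ ^ 2`, `v = xB θ ^ 2`: `e₁` minimal for `qf θ`, so `qf θ e₁ ≤ U`. `Cont1 I e₁`: if `(p) I² ∣ (e₁)`, `e₁ = p β`, `β ∈ I²`, `qf β = qf e₁/p² < qf e₁`. RFU: `F`, `F.a = I`, `F.β = ± e₁`, `F.α = ± θ`. RSZ: `|Y β| √D ≤ U √U ≤ T³ ≤ T √D`, `|Y γ| √D ≤ U √U`, `|Y u| √D ≤ U² ≤ T⁴ ≤ T² √D`, the same for `v`; `|Z|, |Λ| ≤ U ≤ T²`;
RVV: `v₁ β + v₂ β ≤ |emA β| + |emB β| ≤ U √U ≤ T³`, the same for `γ`. -/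
def RCC_stmt : Prop := ∀ (K : Type) [Field K] [NumberField K] (Q : QF K), 0 < Q.D → ∀ (U : ℝ) (T : ℕ), U ≤ (T : ℝ) ^ 2 →
  (T : ℝ) ^ 2 ≤ √(Q.D : ℝ) → ∀ c ∈ CC Q U, ∃ F : Full Q, F.Bdd T ∧
    ∃ h : F.a ∈ nonZeroDivisors (Ideal (𝓞 K)), ClassGroup.mk0 ⟨F.a, h⟩ = c

/-- **RFT** (short to medium; from RTL, RCC; model `main_bound` in `Pool/Agent/helper3/FT/Fin.lean`). The classes with small data, sum over `D`.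
PROOF. `T = ⌈√U⌉₊`: `U ≤ T²`, `T ≤ 2 √U`, `T² ≤ 4 N^(1/2 - δ) ≤ √(N/2) ≤ √D`. RTL, RCC for every `D ∈ DNR N` (chosen field `E`, `E.Q.D = D`): `#CC ≤ #SD D T + 2 #ZD D T`. `sum_SD`, `sum_ZD`, `count_SS`, `count_ZZ` with exponent `δ`: `≤ C T^(4 + δ) ≤ C' N^((1/4 - δ/2)(4 + δ)) ≤ C' N^(1 - 7δ/4) ≤ N^(1 - δ)` for large `N`. -/
def RFT_stmt : Prop := ∀ δ : ℝ, 0 < δ → δ ≤ 1 / 10 → ∃ N₀ : ℝ, ∀ N U : ℝ, N₀ ≤ N → 1 ≤ U → U ≤ N ^ (1 / 2 - δ) →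
  ∑ D ∈ DNR N, SF (fun _ E => ((CC E.Q U).ncard : ℝ)) D ≤ N ^ (1 - δ)

/-- **RMU** (medium; from REM, RLB; model `Pool/Agent/helper6/T6/HMU.lean`). Minimal sizes.
PROOF. For `(θ) = I⁵`: `A B = absNorm I`. (1) `I⁵` is principal (`ClassGroup.mk0_eq_one_iff`), so there is a pair `(I₁, θ₁)`, `b = sz θ₁`; `sz θ ≤ b` implies `|emA θ|, |emB θ| ≤ b^(5/2)`: finitely many `θ` (REM), so the set of values `sz θ ≤ b` is finite and nonempty and its minimum is the infimum. (2) `csInf_le` (bounded below by `0`). (3) `sz θ ≥ 2 A B ≥ 2`. `(cj θ) = Ī⁵`, `xA (cj θ) = xB θ`, `mk0 Ī = (mk0 I)⁻¹` (`QF.mul_bar`):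
`Mn c⁻¹ = Mn c`. Upper bound: `(I, θ)` for `c⁻¹`; RLB for `I` with `u = A, v = B`: `qw e₁ ≤ 2 s`; `(e₁) = I J`, `mk0 J = c`; `(e₁⁵) = (θ) J⁵`, so `e₁⁵ = θ θ'`, `(θ') = J⁵` (`exists_div_aux`), `xA θ' = |emA e₁|/A`, `sz θ' = qw A B e₁`. (4) `(p) ∣ I`: `I = (p) J`, `θ = p⁵ θ'`, `(θ') = J⁵`, `mk0 J = mk0 I`, `sz θ' = sz θ/p² < sz θ`, against (2).
(5) `(α) = I² J`, `(α⁵) = (θ²) J⁵`, `α⁵ = θ² θ'`, `(θ') = J⁵`, `xA θ' = |emA α|/A²`, so `sz θ' = qf θ α`; `mk0 J = ((mk0 I)²)⁻¹`; (2) and (3). -/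
def RMU_stmt : Prop := ∀ (K : Type) [Field K] [NumberField K] (Q : QF K), 0 < Q.D →
  (∀ c : ClassGroup (𝓞 K), c ^ 5 = 1 → ∃ (I : (Ideal (𝓞 K))⁰) (θ : 𝓞 K), ClassGroup.mk0 I = c ∧
    Ideal.span {θ} = (I : Ideal (𝓞 K)) ^ 5 ∧ sz Q θ = Mn Q c) ∧
  (∀ (I : (Ideal (𝓞 K))⁰) (θ : 𝓞 K), Ideal.span {θ} = (I : Ideal (𝓞 K)) ^ 5 → Mn Q (ClassGroup.mk0 I) ≤ sz Q θ) ∧
  (∀ c : ClassGroup (𝓞 K), c ^ 5 = 1 → 2 ≤ Mn Q c ∧ Mn Q c⁻¹ = Mn Q c ∧ Mn Q c ≤ 2 * √(Q.D : ℝ)) ∧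
  (∀ (I : (Ideal (𝓞 K))⁰) (θ : 𝓞 K), Ideal.span {θ} = (I : Ideal (𝓞 K)) ^ 5 → sz Q θ = Mn Q (ClassGroup.mk0 I) →
    Prim (I : Ideal (𝓞 K))) ∧
  ∀ (I : (Ideal (𝓞 K))⁰) (θ : 𝓞 K), Ideal.span {θ} = (I : Ideal (𝓞 K)) ^ 5 → ∀ α ∈ (I : Ideal (𝓞 K)) ^ 2, α ≠ 0 →
    Mn Q (ClassGroup.mk0 I ^ 2) ≤ qf Q θ α

/-- **RCL** (medium; from RMU, RLB, REM; model the row t6:HCL). The classes of one field.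
PROOF. `Ord = {c | c⁵ = 1, c ≠ 1}`, `P = {c ∈ Ord | Mn c ≤ Mn (c²)}`. `c ↦ c²` is injective on `Ord` and maps `Ord \ P` into `P` (`Mn (c⁴) = Mn (c⁻¹) = Mn c > Mn (c²)`). So `#{c⁵ = 1} ≤ 1 + 2 #P`. Let `c ∈ P`, `(a, θ)` from RMU (1), `a` primitive (4), not principal (`c ≠ 1`). RLB for `a²`, `u = xA θ ^ 2`, `v = xB θ ^ 2` (`u v = absNorm (a²)`): `λ = qf θ e₁` is the minimum of `qf θ` on `a²`, `λ ≤ 2 √D ≤ M`, and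
`2 ≤ sz θ = Mn c ≤ Mn (c²) ≤ λ` (RMU (5)). `i, j` with `M/2^(i+1) < sz θ ≤ M/2^i`, `M/2^(j+1) < λ ≤ M/2^j` (`exists_nat_pow_near` for `M/sz`, `M/λ`); `j ≤ i` and `i < L` (`2^i ≤ M/2 < 2^L`). `IMR Q (M/2^i) (M/2^(j+1)) a θ`. If `i < I`: first sum. If `i ≥ I`, `j < J`: second sum. If `j ≥ J`: `sz θ ≤ λ ≤ M/2^J`, so `c ∈ CC Q (M/2^J)`. `c ↦ a` is injective.
`IMset` is finite (`absNorm a = xA θ xB θ ≤ sz θ ≤ Y`, `Ideal.finite_setOf_absNorm_le`), `ClassGroup` is finite. -/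
def RCL_stmt : Prop := ∀ (K : Type) [Field K] [NumberField K] (Q : QF K), Module.finrank ℚ K = 2 → 0 < Q.D →
  ∀ (M : ℝ) (I J L : ℕ), 2 * √(Q.D : ℝ) ≤ M → M < 2 ^ L →
  (Nat.card {x : ClassGroup (𝓞 K) // x ^ 5 = 1} : ℝ) ≤
    1 + 2 * ((∑ i ∈ range I, ∑ j ∈ range (i + 1), ((IMset Q (M / 2 ^ i) (M / 2 ^ (j + 1))).ncard : ℝ)) +
      (∑ i ∈ Ico I L, ∑ j ∈ range J, ((IMset Q (M / 2 ^ i) (M / 2 ^ (j + 1))).ncard : ℝ)) +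
      ((CC Q (M / 2 ^ J)).ncard : ℝ))

/-- **RSU** (medium; from RMN, RBC, RFT, RCL; model the row t6:HSUM). The dyadic sum.
PROOF. `η', C₁, N₁` from RMN, we may take `η' ≤ 1/10`. `δ = η'/2`; `δ', c, N₂` from RBC; `δ'' = min (δ', 1/10)`; RFT with `δ''`. `M = 4 √N`. `I, J, L` minimal with `2^I ≥ 4 N^δ`, `2^J ≥ 4 N^δ''`, `2^L > M`. RCL for every `D ∈ DNR N` (chosen field `E`; it exists: `exists_QF`; `h D = Nat.card ..`; `2 √D ≤ M`), summed over `D`. (a) `#DNR N ≤ N`.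
(b) `i < I`, `j ≤ i`: `Y = M/2^i ≥ M/2^(I-1) > N^(1/2 - δ) ≥ N^(1/2 - η')`, `l = M/2^(j+1)`, `Y ≤ 2l ≤ 4 √N`: RMN: `4 C₁ N/2^i`; `∑_i (i+1)/2^i ≤ 4`: at most `16 C₁ N`. (c) `I ≤ i < L`, `j < J`: `1 ≤ Y = M/2^i ≤ N^(1/2 - δ)` (`2^(L-1) ≤ M`), `2l = M/2^j > N^(1/2 - δ'')`: RBC: `N^(1 - c)` each, `L J ≤ (10 log N + 10)²`: at most `N` for large `N`.
(d) `U = M/2^J ∈ [1, N^(1/2 - δ'')]`: RFT: at most `N`. Total `≤ (32 C₁ + 5) N`. -/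
def RSU_stmt : Prop := TDR_stmt → ∃ C N₀ : ℝ, 1 ≤ C ∧ 1 ≤ N₀ ∧ ∀ h : ℤ → ℕ,
  (∀ (K : Type) [Field K] [NumberField K], Module.finrank ℚ K = 2 →
    h (NumberField.discr K) = Nat.card {x : ClassGroup (𝓞 K) // x ^ 5 = 1}) →
  ∀ N : ℝ, N₀ ≤ N → ∑ D ∈ DNR N, (h D : ℝ) ≤ C * N

/-- **RFI** (short; from RSU; copy of `Pool/Agent/helper40/T6/HFIN.lean`). The target `UBR_stmt`.
PROOF. As HFIN with `D` in place of `-D`: `main_bound` for the `D ≤ N₀`, the others lie in `DNR (N/2^i)`, `N/2^i ≥ N₀`. -/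
def RFI_stmt : Prop := TDR_stmt → UBR_stmt

end Pool.Agent.T6R
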